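import Pool.Agent.NH18.OM.L8

/-!
# MP_0ad054_nt: the fundamental lemma of the sieve for all odd numbers

For every odd `n` consider the primitive representations `n = x² + y² + z² + w²` and
`p = x² + 3 y² + 5 z² + 7 w²`. We determine asymptotically the number of those for which `p (p - 2)` has no
prime factor up to a small power of `n`, and bound the singular product from above and from below uniformly in `n`.
So the number of the representations for which all prime factors of `p (p - 2)` exceed `n ^ (1 / 2800000)` and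
`p (p - 2)` has at most `668` distinct prime factors has the order of magnitude `R (n) / (log n) ^ 2` which is
conjectured for twin primes, and the number of representations for which `p` and `p - 2` are both prime is at most
of this order of magnitude.
-/

set_option autoImplicit false

open Finset

namespace Pool.Agent.Results.MP_0ad054_nt.OrderOfMagnitude

/-- `p = x² + 3 y² + 5 z² + 7 w²` -/
def p (X : Fin 4 → ℤ) : ℤ := X 0 ^ 2 + 3 * X 1 ^ 2 + 5 * X 2 ^ 2 + 7 * X 3 ^ 2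

/-- the representations of `n` as a sum of four squares -/
def AllRep (n : ℕ) : Set (Fin 4 → ℤ) := {X | X 0 ^ 2 + X 1 ^ 2 + X 2 ^ 2 + X 3 ^ 2 = n}

/-- the primitive representations of `n` as a sum of four squares -/
def Rep (n : ℕ) : Set (Fin 4 → ℤ) := {X | X ∈ AllRep n ∧ ∀ d : ℕ, (∀ i, (d : ℤ) ∣ X i) → d = 1}

/-- the number of primitive representations -/
noncomputable def R (n : ℕ) : ℝ := ((Rep n).ncard : ℝ)

/-- the nonzero solutions of `n = x² + y² + z² + w²` modulo `l` -/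
def Sol (n l : ℕ) : Set (Fin 4 → ZMod l) := {u | u ≠ 0 ∧ u 0 ^ 2 + u 1 ^ 2 + u 2 ^ 2 + u 3 ^ 2 = (n : ZMod l)}

/-- `p` modulo `l` -/
def pl (l : ℕ) (u : Fin 4 → ZMod l) : ZMod l := u 0 ^ 2 + 3 * u 1 ^ 2 + 5 * u 2 ^ 2 + 7 * u 3 ^ 2

/-- the proportion of the solutions modulo `l` with `p (p - 2)` divisible by `l` -/
noncomputable def dens (n l : ℕ) : ℝ :=
  (({u | u ∈ Sol n l ∧ (pl l u = 0 ∨ pl l u = 2)} : Set (Fin 4 → ZMod l)).ncard : ℝ) / ((Sol n l).ncard : ℝ)

/-- the singular product over the odd primes up to `y` -/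
noncomputable def W (n y : ℕ) : ℝ := ∏ l ∈ (Finset.Icc 3 y).filter Nat.Prime, (1 - dens n l)

/-- the primitive representations for which all prime factors of `p (p - 2)` exceed `t` -/
def Rough (n : ℕ) (t : ℝ) : Set (Fin 4 → ℤ) :=
  {X | X ∈ Rep n ∧ ∀ q : ℕ, q.Prime → (q : ℤ) ∣ p X * (p X - 2) → t < q}

/-- those for which moreover `p (p - 2)` has at most `k` distinct prime factors -/
def Few (n : ℕ) (t : ℝ) (k : ℕ) : Set (Fin 4 → ℤ) :=
  {X | X ∈ Rough n t ∧ (p X * (p X - 2)).natAbs.primeFactors.card ≤ k}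

/-- the representations for which `p` and `p - 2` are prime -/
def Twin (n : ℕ) : Set (Fin 4 → ℤ) := {X | X ∈ AllRep n ∧ (p X).toNat.Prime ∧ (p X - 2).toNat.Prime}

open Pool.Agent.W65.FS Pool.Agent.NH18.OM

lemma rep_eq (n : ℕ) : Rep n = ((preps n : Finset (Fin 4 → ℤ)) : Set (Fin 4 → ℤ)) := by
  ext X
  rw [Finset.mem_coe, mem_preps, Fin.sum_univ_four]
  unfold Rep AllRep
  simp only [Set.mem_ofPred_eq]
  apply and_congr_right
  intro _
  constructor
  · intro h
    exact h (gc X) ((dvd_gc _ X).1 dvd_rfl)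
  · intro h d hd
    have := (dvd_gc d X).2 hd
    rw [h] at this
    exact Nat.dvd_one.1 this

lemma R_eq (n : ℕ) : R n = ((preps n).card : ℝ) := by
  unfold R
  rw [rep_eq, Set.ncard_coe_finset]

lemma dens_eq (n l : ℕ) (hl : l.Prime) : dens n l = gg ff n l := by
  classical
  have : NeZero l := ⟨hl.ne_zero⟩
  have h1 := card_classes l hl n (fun _ => True)
  rw [Finset.filter_true] at h1
  have h2 := card_classes l hl n (fun u : Fin 4 → ZMod l => pl l u = 0 ∨ pl l u = 2)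
  have hBl : Bl ff n l = (Gl n l).filter (fun c => (fun u : Fin 4 → ZMod l => pl l u = 0 ∨ pl l u = 2)
      (fun i => ((c i : ℤ) : ZMod l))) := by
    have : Fact l.Prime := ⟨hl⟩
    ext c
    rw [mem_Bl, Finset.mem_filter]
    apply and_congr_right
    intro _
    rw [← ZMod.intCast_zmod_eq_zero_iff_dvd]
    unfold ff pf pl
    push_cast
    rw [mul_eq_zero, sub_eq_zero]
  unfold dens gg
  rw [hBl, h1, h2]
  have e1 : Sol n l = ((univ.filter (fun u : Fin 4 → ZMod l => u ≠ 0 ∧ ∑ i, u i ^ 2 = (n : ZMod l) ∧ True) : Finset _) :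
      Set (Fin 4 → ZMod l)) := by
    ext u
    unfold Sol
    simp [Fin.sum_univ_four]
  have e2 : ({u | u ∈ Sol n l ∧ (pl l u = 0 ∨ pl l u = 2)} : Set (Fin 4 → ZMod l)) =
      ((univ.filter (fun u : Fin 4 → ZMod l => u ≠ 0 ∧ ∑ i, u i ^ 2 = (n : ZMod l) ∧ (pl l u = 0 ∨ pl l u = 2)) : Finset _) :
      Set (Fin 4 → ZMod l)) := by
    ext u
    unfold Sol
    simp [Fin.sum_univ_four, and_assoc]
  rw [e2, e1, Set.ncard_coe_finset, Set.ncard_coe_finset]

lemma W_eq (n y : ℕ) : W n y = WW n y := by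
  unfold W WW prim
  apply Finset.prod_congr rfl
  intro l hl
  rw [Finset.mem_filter] at hl
  rw [dens_eq n l hl.2]

lemma rough_eq (n : ℕ) (hn : Odd n) (δ : ℝ) :
    Rough n ((n : ℝ) ^ δ) = ((RS n ⌊(n : ℝ) ^ δ⌋₊ : Finset (Fin 4 → ℤ)) : Set (Fin 4 → ℤ)) := by
  ext X
  rw [Finset.mem_coe, mem_RS' n hn δ]
  unfold Rough
  rw [Set.mem_ofPred_eq, rep_eq, Finset.mem_coe]
  rfl

theorem result :
    -- the singular product has the order of magnitude `1 / (log y) ^ 2` uniformly in `n`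
    (∃ c C : ℝ, 0 < c ∧ 0 < C ∧ ∀ n y : ℕ, 3 ≤ y →
      c / Real.log y ^ 2 ≤ W n y ∧ W n y ≤ C / Real.log y ^ 2) ∧
    -- the fundamental lemma for all odd `n`
    (∀ ε : ℝ, 0 < ε → ∃ δ0 : ℝ, 0 < δ0 ∧ ∀ δ : ℝ, 0 < δ → δ ≤ δ0 → ∃ n0 : ℕ, ∀ n : ℕ, Odd n → n0 ≤ n →
      |((Rough n ((n : ℝ) ^ δ)).ncard : ℝ) - R n * W n ⌊(n : ℝ) ^ δ⌋₊| ≤ ε * (R n * W n ⌊(n : ℝ) ^ δ⌋₊)) ∧
    -- bounds of the conjectured order of magnitude for all large odd `n`
    (∃ c C : ℝ, 0 < c ∧ 0 < C ∧ ∃ n0 : ℕ, ∀ n : ℕ, Odd n → n0 ≤ n →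
      c * R n / Real.log n ^ 2 ≤ ((Few n ((n : ℝ) ^ (1 / 2800000 : ℝ)) 668).ncard : ℝ) ∧
      ((Rough n ((n : ℝ) ^ (1 / 2800000 : ℝ))).ncard : ℝ) ≤ C * R n / Real.log n ^ 2 ∧
      ((Twin n).ncard : ℝ) ≤ C * R n / Real.log n ^ 2) := by
  classical
  refine ⟨?_, ?_, ?_⟩
  · obtain ⟨c, C, hc, hC, h⟩ := WW_order
    refine ⟨c, C, hc, hC, fun n y hy => ?_⟩
    rw [W_eq]
    exact h n y hy
  · intro ε hε
    obtain ⟨δ0, hδ0, h⟩ := fundamental ε hε
    refine ⟨δ0, hδ0, fun δ h1 h2 => ?_⟩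
    obtain ⟨n0, h3⟩ := h δ h1 h2
    refine ⟨n0, fun n hn hn0 => ?_⟩
    rw [rough_eq n hn δ, Set.ncard_coe_finset, R_eq, W_eq]
    exact h3 n hn hn0
  · obtain ⟨c, C, hc, hC, n0, h⟩ := main_counts
    refine ⟨c, C, hc, hC, n0, fun n hn hn0 => ?_⟩
    obtain ⟨⟨S, hS1, hS2⟩, h2, h3⟩ := h n hn hn0
    have hdl : (1 / 2800000 : ℝ) = dl := rfl
    have hfinR : (Rough n ((n : ℝ) ^ dl)).Finite := by
      rw [rough_eq n hn dl]; exact Finset.finite_toSet _
    refine ⟨?_, ?_, ?_⟩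
    · rw [R_eq, hdl]
      refine hS1.trans ?_
      rw [← Set.ncard_coe_finset]
      have hsub : ((S : Finset (Fin 4 → ℤ)) : Set (Fin 4 → ℤ)) ⊆ Few n ((n : ℝ) ^ dl) 668 := by
        intro X hX
        obtain ⟨a1, a2, a3⟩ := hS2 X hX
        refine ⟨?_, a3⟩
        rw [rough_eq n hn dl, Finset.mem_coe, mem_RS' n hn dl]
        exact ⟨a1, a2⟩
      have hfin : (Few n ((n : ℝ) ^ dl) 668).Finite := hfinR.subset (fun X hX => hX.1)
      exact_mod_cast Set.ncard_le_ncard hsub hfin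
    · rw [R_eq, hdl]
      have := h2 (RS n ⌊(n : ℝ) ^ dl⌋₊) (fun X hX => (mem_RS' n hn dl X).1 hX)
      rw [rough_eq n hn dl, Set.ncard_coe_finset]
      exact this
    · rw [R_eq]
      have htw : Twin n = (((reps n).filter (fun X => (p X).toNat.Prime ∧ (p X - 2).toNat.Prime) : Finset (Fin 4 → ℤ)) :
          Set (Fin 4 → ℤ)) := by
        ext X
        unfold Twin AllRep
        rw [Finset.mem_coe, Finset.mem_filter, mem_reps, Fin.sum_univ_four]
        rfl
      rw [htw, Set.ncard_coe_finset]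
      apply h3
      intro X hX
      rw [Finset.mem_filter, mem_reps] at hX
      obtain ⟨a1, a2, a3⟩ := hX
      have key : ∀ a : ℤ, a.toNat.Prime → a.natAbs.Prime := by
        intro a ha
        have h0 : 0 < a.toNat := ha.pos
        have h1 : a.natAbs = a.toNat := by omega
        rw [h1]; exact ha
      exact ⟨a1, key _ a2, key _ a3⟩

end Pool.Agent.Results.MP_0ad054_nt.OrderOfMagnitude
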