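import Pool.Agent.R496.FP.LO
import Pool.Agent.R496.FP.SG
import Pool.Agent.R496.FP.MA
import Pool.Agent.R496.FP.MI
import Pool.Agent.R496.FP.AV
import Pool.Agent.R496.FP.AM
import Pool.Agent.R496.FP.OR
import Pool.Agent.R496.FP.CR
import Pool.Agent.R496.FP.HO
import Pool.Agent.R496.FP.HT
import Pool.Agent.R496.FP.LC
import Pool.Agent.R496.FP.GB
import Pool.Agent.R496.FP.FA
import Pool.Agent.R496.FP.FB
import Pool.Agent.R496.FP.IN
import Pool.Agent.R496.FP.EX
import Pool.Agent.R496.FP.M2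
import Pool.Agent.NH18.PC.A6

/-!
# MP_0ad054_nt: a positive proportion of the odd numbers, with clusters of primes

For every `m`, for a positive proportion of the odd numbers `n` there are many representations
`n = x² + y² + z² + w²` for which `p = x² + 3 y² + 5 z² + 7 w²` is the largest member of a cluster of `m + 1`
primes `p > p - d₁ > ... > p - d_m` in an interval of bounded length, each member `q` of which is such that
`q - 2` is an almost prime.
-/

set_option autoImplicit false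

namespace Pool.Agent.Results.MP_0ad054_nt.PrimeClusters

/-- `v = (x, y, z, w)` is a representation `n = x² + y² + z² + w²` such that, with
`p = x² + 3 y² + 5 z² + 7 w²`, for `d = 0` and for every `d ∈ D` the number `p - d` is prime and
`p - d - 2` is a product of at most `r` primes (counted with multiplicity), all larger than `n ^ η`. -/
def ClusterRep (η : ℝ) (r : ℕ) (D : Finset ℕ) (n : ℕ) (v : ℤ × ℤ × ℤ × ℤ) : Prop :=
  (n : ℤ) = v.1 ^ 2 + v.2.1 ^ 2 + v.2.2.1 ^ 2 + v.2.2.2 ^ 2 ∧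
  ∃ p : ℕ, (p : ℤ) = v.1 ^ 2 + 3 * v.2.1 ^ 2 + 5 * v.2.2.1 ^ 2 + 7 * v.2.2.2 ^ 2 ∧
    ∀ d ∈ insert 0 D, d + 2 < p ∧ (p - d).Prime ∧ (p - d - 2).primeFactorsList.length ≤ r ∧
    ∀ l : ℕ, l.Prime → l ∣ p - d - 2 → (n : ℝ) ^ η < l

lemma finite_clusterRep (η : ℝ) (r : ℕ) (D : Finset ℕ) (n : ℕ) :
    {v : ℤ × ℤ × ℤ × ℤ | ClusterRep η r D n v}.Finite := by
  have hfin : ((Set.Icc (-(n : ℤ)) n) ×ˢ ((Set.Icc (-(n : ℤ)) n) ×ˢ ((Set.Icc (-(n : ℤ)) n) ×ˢ
      (Set.Icc (-(n : ℤ)) n)))).Finite :=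
    (Set.finite_Icc _ _).prod ((Set.finite_Icc _ _).prod ((Set.finite_Icc _ _).prod
      (Set.finite_Icc _ _)))
  refine hfin.subset ?_
  rintro ⟨x, y, z, w⟩ ⟨h, -⟩
  simp only at h
  have key : ∀ a r : ℤ, 0 ≤ r → (n : ℤ) = a ^ 2 + r → a ∈ Set.Icc (-(n : ℤ)) n := by
    intro a r hr ha
    have h1 : a ^ 2 ≤ n := by linarith
    have h2 : |a| ≤ a ^ 2 := by
      rcases eq_or_ne a 0 with h0 | h0
      · simp [h0]
      · have h3 : 1 ≤ |a| := Int.one_le_abs h0
        rw [← sq_abs]; nlinarith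
    exact abs_le.1 (h2.trans h1)
  refine ⟨key x (y ^ 2 + z ^ 2 + w ^ 2) (by positivity) (by rw [h]; ring),
    key y (x ^ 2 + z ^ 2 + w ^ 2) (by positivity) (by rw [h]; ring),
    key z (x ^ 2 + y ^ 2 + w ^ 2) (by positivity) (by rw [h]; ring),
    key w (x ^ 2 + y ^ 2 + z ^ 2) (by positivity) (by rw [h]; ring)⟩

/-- For every `m` there are `η > 0`, `r`, `C`, `E`, `c > 0` such that for all large `N` there is a set `D` of `m`
positive integers, all at most `C`, for which at least `c N` odd numbers `n ≤ N` have at least `c N / log ^ E N`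
representations `n = x² + y² + z² + w²` such that for `p = x² + 3 y² + 5 z² + 7 w²` the `m + 1` numbers `p - d`,
`d ∈ {0} ∪ D`, are all prime, and each of the numbers `p - d - 2` is a product of at most `r` primes, all larger
than `n ^ η`. -/
theorem result : ∀ m : ℕ, ∃ η : ℝ, 0 < η ∧ ∃ r C E : ℕ, ∃ c : ℝ, 0 < c ∧ ∃ N₀ : ℕ, ∀ N : ℕ, N₀ ≤ N →
    ∃ D : Finset ℕ, D ⊆ Finset.Icc 1 C ∧ D.card = m ∧
    c * N ≤ (({n : ℕ | n ≤ N ∧ Odd n ∧
      c * N / Real.log N ^ E ≤ (({v : ℤ × ℤ × ℤ × ℤ | ClusterRep η r D n v}).ncard : ℝ)}).ncard : ℝ) := by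
  intro m
  have hGB := Pool.Agent.R496.FP.gb
  have hFA := Pool.Agent.R496.FP.fa
  have hEX := Pool.Agent.R496.FP.ex
  have hFB := Pool.Agent.R496.FP.fb hGB
  have hIN := Pool.Agent.R496.FP.inn
  have hMI := Pool.Agent.R496.FP.mi hFA hFB
  have hMA := Pool.Agent.R496.FP.ma hFA hFB hGB hIN
  have hOR := Pool.Agent.R496.FP.orr
  have hCR := Pool.Agent.R496.FP.cr
  have hHO := Pool.Agent.R496.FP.ho
  have hHT := Pool.Agent.R496.FP.ht
  have hLC := Pool.Agent.R496.FP.lc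
  have hAM := Pool.Agent.R496.FP.am hOR hCR
  have hAV := Pool.Agent.R496.FP.av hGB hOR hHO hHT hLC
  have hSG := Pool.Agent.R496.FP.sg hOR hCR hLC hAM hAV
  obtain ⟨η, hη, r, C, E, c, hc, N0, h⟩ :=
    NH18.PC.clu hFA hEX hMI hMA hSG Pool.Agent.R496.FP.m2 m
  classical
  refine ⟨η, hη, r, C, E, c, hc, N0, fun N hN => ?_⟩
  obtain ⟨D, hD1, hD2, A, hA, hA2⟩ := h N hN
  refine ⟨D, hD1, hD2, hA.trans ?_⟩
  have hfin : {n : ℕ | n ≤ N ∧ Odd n ∧
      c * N / Real.log N ^ E ≤ (({v : ℤ × ℤ × ℤ × ℤ | ClusterRep η r D n v}).ncard : ℝ)}.Finite :=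
    (Set.finite_Iic N).subset fun n hn => hn.1
  have hsub : (A : Set ℕ) ⊆ {n : ℕ | n ≤ N ∧ Odd n ∧
      c * N / Real.log N ^ E ≤ (({v : ℤ × ℤ × ℤ × ℤ | ClusterRep η r D n v}).ncard : ℝ)} := by
    intro n hn
    obtain ⟨h1, h2, h3, R, hR, hR2⟩ := hA2 n hn
    refine ⟨h2, h3, hR.trans ?_⟩
    have hinj : Function.Injective (fun X : Fin 4 → ℤ => (X 0, X 1, X 2, X 3)) := by
      intro X Y hXY
      simp only [Prod.mk.injEq] at hXY
      obtain ⟨h0, h1, h2, h3⟩ := hXY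
      funext i
      fin_cases i
      · exact h0
      · exact h1
      · exact h2
      · exact h3
    have hc1 : R.card = (R.image (fun X : Fin 4 → ℤ => (X 0, X 1, X 2, X 3))).card :=
      (Finset.card_image_of_injective R hinj).symm
    rw [hc1]
    have hs : ((R.image (fun X : Fin 4 → ℤ => (X 0, X 1, X 2, X 3)) : Finset (ℤ × ℤ × ℤ × ℤ)) :
        Set (ℤ × ℤ × ℤ × ℤ)) ⊆ {v : ℤ × ℤ × ℤ × ℤ | ClusterRep η r D n v} := by
      intro v hv
      rw [Finset.mem_coe, Finset.mem_image] at hv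
      obtain ⟨X, hX, rfl⟩ := hv
      obtain ⟨p, e1, e2, e3⟩ := hR2 X hX
      exact ⟨e1, p, e2, e3⟩
    have h5 := Set.ncard_le_ncard hs (finite_clusterRep η r D n)
    rw [Set.ncard_coe_finset] at h5
    exact_mod_cast h5
  have h6 := Set.ncard_le_ncard hsub hfin
  rw [Set.ncard_coe_finset] at h6
  exact_mod_cast h6

end Pool.Agent.Results.MP_0ad054_nt.PrimeClusters
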